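import Pool.Agent.Helper93.Fin.Defs

/-!
# The homogeneous spaces `Sp(3)/diag(z,z,q)`, `SU(4)/diag(zA,z,z⁻³)` and `G₂/SU(2)`
-/

noncomputable section

namespace Pool.Agent.Helper93.Fin

open scoped ContDiff Quaternion Matrix

attribute [local instance] Matrix.linftyOpNormedRing Matrix.linftyOpNormedAlgebra

/-! ## `Sp(3)/diag(z,z,q)` -/

namespace Sp3

/-- quaternionic `3 × 3` matrices -/
abbrev Mat : Type := Matrix (Fin 3) (Fin 3) ℍ[ℝ]

/-- `Sp(3)` -/
def G : Subgroup Matˣ where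
  carrier := {g | star (g : Mat) * (g : Mat) = 1}
  one_mem' := by simp
  mul_mem' := by
    intro a b ha hb
    simp only [Set.mem_ofPred_eq, Units.val_mul, star_mul] at *
    rw [mul_assoc, ← mul_assoc (star (a : Mat)), ha, one_mul, hb]
  inv_mem' := by
    intro a ha
    simp only [Set.mem_ofPred_eq] at *
    have h1 : star (a : Mat) = ((a⁻¹ : Matˣ) : Mat) := by
      rw [← Units.mul_eq_one_iff_eq_inv]; exact ha
    have h2 : star ((a⁻¹ : Matˣ) : Mat) = (a : Mat) := by rw [← h1, star_star]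
    rw [h2]; exact a.mul_inv

/-- `diag(z, z, q)` -/
def dg (z : ℂ) (q : ℍ[ℝ]) : Mat := Matrix.diagonal ![(z : ℍ[ℝ]), (z : ℍ[ℝ]), q]

/-- `H = {diag(z, z, q)}` with unit complex numbers `z` and unit quaternions `q` -/
def H : Subgroup Matˣ where
  carrier := {g | ∃ (z : ℂ) (q : ℍ[ℝ]), ‖z‖ = 1 ∧ ‖q‖ = 1 ∧ (g : Mat) = dg z q}
  one_mem' := ⟨1, 1, by simp, by simp, by
    rw [dg, Units.val_one, ← Matrix.diagonal_one]
    congr 1
    funext i
    fin_cases i <;> simp⟩
  mul_mem' := by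
    rintro a b ⟨z, q, hz, hq, ha⟩ ⟨z', q', hz', hq', hb⟩
    refine ⟨z * z', q * q', by simp [hz, hz'], by simp [hq, hq'], ?_⟩
    rw [Units.val_mul, ha, hb, dg, dg, dg, Matrix.diagonal_mul_diagonal]
    congr 1
    ext i : 1
    fin_cases i <;> simp
  inv_mem' := by
    rintro a ⟨z, q, hz, hq, ha⟩
    have hz0 : z ≠ 0 := by intro h; simp [h] at hz
    have hq0 : q ≠ 0 := by intro h; simp [h] at hq
    refine ⟨z⁻¹, q⁻¹, by simp [hz], by simp [hq], ?_⟩
    have hzz : (z : ℍ[ℝ]) * ((z⁻¹ : ℂ) : ℍ[ℝ]) = 1 := by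
      rw [← Quaternion.coeComplex_mul, mul_inv_cancel₀ hz0, Quaternion.coeComplex_one]
    have h1 : (a : Mat) * dg z⁻¹ q⁻¹ = 1 := by
      rw [ha, dg, dg, Matrix.diagonal_mul_diagonal, ← Matrix.diagonal_one]
      congr 1
      funext i
      fin_cases i <;> simp [hzz, hq0]
    exact Units.inv_eq_of_mul_eq_one_right h1

/-- the orthogonal complement of the Lie algebra of `H` in the Lie algebra of `Sp(3)` -/
def m : Submodule ℝ Mat where
  carrier := {X | star X = -X ∧ X 2 2 = 0 ∧ (X 0 0).imI + (X 1 1).imI = 0}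
  zero_mem' := by simp
  add_mem' := by
    rintro X Y ⟨h1, h2, h3⟩ ⟨k1, k2, k3⟩
    refine ⟨by rw [star_add, h1, k1]; abel, by simp [h2, k2], ?_⟩
    simp only [Matrix.add_apply, Quaternion.imI_add]
    linarith
  smul_mem' := by
    rintro c X ⟨h1, h2, h3⟩
    refine ⟨?_, by simp [h2], ?_⟩
    · ext i j : 1
      have := congrFun (congrFun h1 i) j
      simp only [Matrix.star_apply, Matrix.neg_apply] at this
      rw [Matrix.star_apply, Matrix.neg_apply, Matrix.smul_apply, Matrix.smul_apply, ← smul_neg,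
        ← this]
      exact Quaternion.star_smul c (X j i)
    simp only [Matrix.smul_apply, Quaternion.imI_smul, smul_eq_mul]
    rw [← mul_add, h3, mul_zero]

end Sp3

/-! ## `SU(4)/diag(zA, z, z⁻³)` -/

namespace SU4

/-- complex `4 × 4` matrices in `2 × 2` blocks -/
abbrev Mat : Type := Matrix (Fin 2 ⊕ Fin 2) (Fin 2 ⊕ Fin 2) ℂ

/-- `SU(4)` -/
def G : Subgroup Matˣ where
  carrier := {g | star (g : Mat) * (g : Mat) = 1 ∧ (g : Mat).det = 1}
  one_mem' := by simp
  mul_mem' := by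
    rintro a b ⟨ha, ha'⟩ ⟨hb, hb'⟩
    simp only [Set.mem_ofPred_eq, Units.val_mul, star_mul, Matrix.det_mul, ha', hb', mul_one,
      and_true] at *
    rw [mul_assoc, ← mul_assoc (star (a : Mat)), ha, one_mul, hb]
  inv_mem' := by
    rintro a ⟨ha, ha'⟩
    have h1 : star (a : Mat) = ((a⁻¹ : Matˣ) : Mat) := by
      rw [← Units.mul_eq_one_iff_eq_inv]; exact ha
    have h2 : star ((a⁻¹ : Matˣ) : Mat) = (a : Mat) := by rw [← h1, star_star]
    refine ⟨by rw [h2]; exact a.mul_inv, ?_⟩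
    have h3 : (a : Mat).det * ((a⁻¹ : Matˣ) : Mat).det = 1 := by
      rw [← Matrix.det_mul, a.mul_inv, Matrix.det_one]
    rwa [ha', one_mul] at h3

/-- `diag(zA, z, z̄³)` -/
def dg (A : Matrix (Fin 2) (Fin 2) ℂ) (z : ℂ) : Mat :=
  Matrix.fromBlocks (z • A) 0 0 (Matrix.diagonal ![z, star z ^ 3])

/-- `H = {diag(zA, z, z̄³)}` with `A ∈ SU(2)` and unit complex numbers `z` -/
def H : Subgroup Matˣ where
  carrier := {g | ∃ (A : Matrix (Fin 2) (Fin 2) ℂ) (z : ℂ),
    star A * A = 1 ∧ A.det = 1 ∧ ‖z‖ = 1 ∧ (g : Mat) = dg A z}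
  one_mem' := ⟨1, 1, by simp, by simp, by simp, by
    ext i j : 2
    rcases i with i | i <;> rcases j with j | j <;> fin_cases i <;> fin_cases j <;>
      simp [dg, Matrix.diagonal]⟩
  mul_mem' := by
    rintro a b ⟨A, z, hA, hA', hz, ha⟩ ⟨B, w, hB, hB', hw, hb⟩
    refine ⟨A * B, z * w, ?_, by simp [hA', hB'], by simp [hz, hw], ?_⟩
    · rw [star_mul, mul_assoc, ← mul_assoc (star A), hA, one_mul, hB]
    · rw [Units.val_mul, ha, hb, dg, dg, dg, Matrix.fromBlocks_multiply]
      congr 1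
      · simp [smul_smul, mul_comm]
      · simp
      · simp
      · simp only [Matrix.mul_zero, zero_add, Matrix.diagonal_mul_diagonal]
        congr 1
        ext i : 1
        fin_cases i <;> simp [mul_pow]
  inv_mem' := by
    rintro a ⟨A, z, hA, hA', hz, ha⟩
    have hAA : A * star A = 1 := by
      exact mul_eq_one_comm.mp hA
    have hzz : z * star z = 1 := by
      rw [Complex.star_def, Complex.mul_conj, Complex.normSq_eq_norm_sq, hz]; simp
    have hzz' : star z * z = 1 := by rw [mul_comm]; exact hzz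
    refine ⟨star A, star z, by rw [star_star]; exact hAA, ?_, by simp [hz], ?_⟩
    · rw [Matrix.star_eq_conjTranspose, Matrix.det_conjTranspose, hA', star_one]
    have h1 : (a : Mat) * dg (star A) (star z) = 1 := by
      rw [ha, dg, dg, Matrix.fromBlocks_multiply]
      simp only [Matrix.mul_zero, add_zero, zero_add, Matrix.zero_mul, star_star]
      rw [Matrix.smul_mul, Matrix.mul_smul, smul_smul, hAA, hzz, one_smul,
        Matrix.diagonal_mul_diagonal, ← Matrix.fromBlocks_one]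
      congr 1
      ext i j : 2
      fin_cases i <;> fin_cases j <;> simp [Matrix.diagonal]
      · simpa using hzz
      · rw [← mul_pow]
        have : (starRingEnd ℂ) z * z = 1 := hzz'
        rw [this, one_pow]
    exact Units.inv_eq_of_mul_eq_one_right h1

/-- the matrix with blocks `i α`, `X`, `-X*` and `(-2iα, w; -w̄, 0)` -/
def mk (α : ℝ) (w : ℂ) (X : Matrix (Fin 2) (Fin 2) ℂ) : Mat :=
  Matrix.fromBlocks ((α * Complex.I) • 1) X (-star X)
    !![-2 * α * Complex.I, w; -star w, 0]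

/-- the orthogonal complement of the Lie algebra of `H` in the Lie algebra of `SU(4)` -/
def m : Submodule ℝ Mat where
  carrier := {Z | ∃ α w X, Z = mk α w X}
  zero_mem' := ⟨0, 0, 0, by
    ext i j : 2
    rcases i with i | i <;> rcases j with j | j <;> fin_cases i <;> fin_cases j <;>
      simp [mk]⟩
  add_mem' := by
    rintro _ _ ⟨α, w, X, rfl⟩ ⟨β, v, Y, rfl⟩
    refine ⟨α + β, w + v, X + Y, ?_⟩
    ext i j : 2
    rcases i with i | i <;> rcases j with j | j <;> fin_cases i <;> fin_cases j <;>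
      simp [mk] <;> ring
  smul_mem' := by
    rintro c _ ⟨α, w, X, rfl⟩
    refine ⟨c * α, c * w, c • X, ?_⟩
    ext i j : 2
    rcases i with i | i <;> rcases j with j | j <;> fin_cases i <;> fin_cases j <;>
      simp [mk] <;> ring

end SU4

/-! ## `G₂/SU(2)` -/

namespace G2

/-- the octonions as pairs of quaternions -/
abbrev Oct : Type := ℍ[ℝ] × ℍ[ℝ]

/-- Cayley–Dickson product of octonions -/
def omul (x y : Oct) : Oct := (x.1 * y.1 - star y.2 * x.2, y.2 * x.1 + x.2 * star y.1)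

/-- real endomorphisms of the octonions -/
abbrev End : Type := Oct →L[ℝ] Oct

/-- `G₂`, the automorphism group of the octonions -/
def G : Subgroup Endˣ where
  carrier := {g | ∀ x y : Oct, (g : End) (omul x y) = omul ((g : End) x) ((g : End) y)}
  one_mem' := by intro x y; simp
  mul_mem' := by
    intro a b ha hb x y
    simp only [Units.val_mul, mul_apply_eq_comp]
    rw [hb, ha]
  inv_mem' := by
    intro a ha x y
    have h1 : ∀ z, ((a⁻¹ : Endˣ) : End) ((a : End) z) = z := by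
      intro z
      have : (((a⁻¹ : Endˣ) : End) * (a : End)) z = (1 : End) z := by rw [a.inv_mul]
      exact this
    have h2 : ∀ z, (a : End) (((a⁻¹ : Endˣ) : End) z) = z := by
      intro z
      have : ((a : End) * ((a⁻¹ : Endˣ) : End)) z = (1 : End) z := by rw [a.mul_inv]
      exact this
    rw [← h1 (omul (((a⁻¹ : Endˣ) : End) x) (((a⁻¹ : Endˣ) : End) y)), ha, h2, h2]

/-- `H = SU(2)`, unit quaternions `p` acting by `(a, b) ↦ (a, p b)` -/
def H : Subgroup Endˣ where
  carrier := {g | ∃ p : ℍ[ℝ], ‖p‖ = 1 ∧ ∀ x : Oct, (g : End) x = (x.1, p * x.2)}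
  one_mem' := ⟨1, by simp, fun x => by simp⟩
  mul_mem' := by
    rintro a b ⟨p, hp, ha⟩ ⟨q, hq, hb⟩
    refine ⟨p * q, by simp [hp, hq], fun x => ?_⟩
    simp only [Units.val_mul, mul_apply_eq_comp]
    rw [hb, ha, mul_assoc]
  inv_mem' := by
    rintro a ⟨p, hp, ha⟩
    have hp0 : p ≠ 0 := by intro h; simp [h] at hp
    refine ⟨p⁻¹, by simp [hp], fun x => ?_⟩
    have h1 : ∀ z, ((a⁻¹ : Endˣ) : End) ((a : End) z) = z := by
      intro z
      have : (((a⁻¹ : Endˣ) : End) * (a : End)) z = (1 : End) z := by rw [a.inv_mul]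
      exact this
    conv_lhs => rw [show x = (a : End) (x.1, p⁻¹ * x.2) by
      rw [ha]; ext1 <;> simp [hp0]]
    rw [h1]

/-- `i`, `j`, `k` -/
def e : Fin 3 → ℍ[ℝ] := ![⟨0, 1, 0, 0⟩, ⟨0, 0, 1, 0⟩, ⟨0, 0, 0, 1⟩]

/-- the endomorphism `(a, b) ↦ ([q, a] - ∑ₛ ⟨b, Pₛ⟩ eₛ, ∑ₛ aₛ Pₛ - b q)` of the octonions, where
`a₁, a₂, a₃` are the imaginary components of `a`. -/
def act (q : ℍ[ℝ]) (P : Fin 3 → ℍ[ℝ]) (x : Oct) : Oct :=
  (q * x.1 - x.1 * q - ∑ s, (x.2 * star (P s)).re • e s,
    x.1.imI • P 0 + x.1.imJ • P 1 + x.1.imK • P 2 - x.2 * q)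

/-- the orthogonal complement of the Lie algebra of `H` in the Lie algebra of `G₂` -/
def m : Submodule ℝ End where
  carrier := {X | ∃ (q : ℍ[ℝ]) (P : Fin 3 → ℍ[ℝ]),
    q.re = 0 ∧ ∑ s, P s * e s = 0 ∧ ∀ x, X x = act q P x}
  zero_mem' := ⟨0, 0, by simp, by simp, fun x => by ext1 <;> simp [act]⟩
  add_mem' := by
    rintro X Y ⟨q, P, hq, hP, hX⟩ ⟨q', P', hq', hP', hY⟩
    refine ⟨q + q', P + P', by simp [hq, hq'], ?_, fun x => ?_⟩
    · simp only [Pi.add_apply, add_mul, Finset.sum_add_distrib, hP, hP', add_zero]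
    · rw [_root_.add_apply, hX, hY]
      simp only [act, Pi.add_apply, star_add, mul_add, Quaternion.re_add, add_smul,
        Finset.sum_add_distrib, add_mul, smul_add, Prod.mk_add_mk]
      refine Prod.ext ?_ ?_
      · abel_nf
      · abel_nf
  smul_mem' := by
    rintro c X ⟨q, P, hq, hP, hX⟩
    refine ⟨c • q, c • P, by simp [hq], ?_, fun x => ?_⟩
    · simp only [Pi.smul_apply, smul_mul_assoc, ← Finset.smul_sum, hP, smul_zero]
    · rw [_root_.smul_apply, hX]
      simp only [act, Pi.smul_apply, Quaternion.star_smul, mul_smul_comm, smul_mul_assoc,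
        Quaternion.re_smul, smul_smul, Prod.smul_mk, smul_sub, smul_add, Finset.smul_sum,
        smul_eq_mul, mul_comm]

end G2

end Pool.Agent.Helper93.Fin
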