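import Pool.Agent.helper25.FinLim6
import Pool.Agent.helper25.FinNonDeg
import Pool.Agent.helper77.FinG2n2
import Pool.Agent.helper77.FinG2f
import Pool.Agent.helper86.FinG2n
import Pool.Agent.helper16.Fin.G2a
import Pool.Agent.helper18.FinB
import Pool.Agent.helper18.FinLim3
import Pool.Agent.helper26.Fin.G2s

/-!
# `G₂/SU(2)` admits an invariant reversible Finsler metric of positive flag curvature
-/

noncomputable section

namespace Pool.Agent.Helper93.Fin

open scoped ContDiff Quaternion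

namespace G2

theorem nonDeg {P : End →L[ℝ] m} {Ph Pk Pp : End →L[ℝ] End}
    (hS : SymData (𝔸 := End) sh sk sp QQ Ph Pk Pp) (hP : ∀ X, (P X : End) = Pk X + Pp X) :
    NonDeg (𝔸 := End) sh sk sp m P phi :=
  ⟨G2n.kcomm, G2n.free, G2n.n1, n2 hS hP⟩

theorem Adj_eq {k : Endˣ} {p : ℍ[ℝ]} (hp : ‖p‖ = 1) (hk : ∀ x : Oct, (k : End) x = (x.1, p * x.2))
    (q : ℍ[ℝ]) (P : Fin 3 → ℍ[ℝ]) :
    Adj (𝔸 := End) k (kel q + pel P) = kel q + pel (fun s => p * P s) := by
  refine ContinuousLinearMap.ext fun x => ?_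
  have h1 : Adj (𝔸 := End) k (kel q + pel P) x
      = (k : End) ((kel q + pel P) (((k⁻¹ : Endˣ) : End) x)) := rfl
  have h2 : ∀ (P : Fin 3 → ℍ[ℝ]) (y : Oct), (kel q + pel P) y = act q P y := fun P y => by
    rw [act_eq]; rfl
  rw [h1, A.inv_apply hp hk, h2, hk, h2]
  refine Prod.ext ?_ ?_
  · simp only [act]
    congr 1
    refine Finset.sum_congr rfl fun s _ => ?_
    congr 1
    rw [star_mul, ← mul_assoc]
    have : ∀ a b : ℍ[ℝ], (a * b).re = (b * a).re := fun a b => by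
      simp; ring
    rw [mul_assoc (star p), this]
  · simp only [act, mul_add, mul_sub, mul_smul_comm]
    congr 1
    rw [← mul_assoc, ← mul_assoc, A.self_mul_star' hp, one_mul]

theorem admitsPositive : AdmitsPositive (𝔸 := End) G H m := by
  obtain ⟨Ph, Pk, Pp, hS, P, hP⟩ := exists_sym
  obtain ⟨L, hL, hpos, hR, r, t, hLL⟩ :=
    exists_positive hS m_eq hP (phi_data hS hP) (nonDeg hS hP)
  have hred : RedData (𝔸 := End) (sh ⊔ sk ⊔ sp) sh m P := redData_of_sym hS m_eq hP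
  have hhom : ∀ (c : ℝ) (u : m), L (c • u) = c ^ 2 * L u := by
    intro c u
    rw [hLL]
    exact (Lim6.LL_hom6 (phi_data hS hP) r t) c u
  have hinv : ∀ k ∈ H, ∀ u v : m, (v : End) = Adj (𝔸 := End) k u → L v = L u := by
    intro k hk u v huv
    have h1 := phi_Ad k hk u v huv
    obtain ⟨p, hp, hkp⟩ := hk
    obtain ⟨q, W, hq, hW, hu⟩ := G2f.exists_comp u.2
    have hW' : ∑ s, (p * W s) * e s = 0 := by
      simp only [mul_assoc, ← Finset.mul_sum, hW, mul_zero]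
    have hv : (v : End) = kel q + pel (fun s => p * W s) := by
      rw [huv, hu, Adj_eq hp hkp]
    have e1 : ∀ (X : End) (b : ℍ[ℝ]) (V : Fin 3 → ℍ[ℝ]), b.re = 0 → ∑ s, V s * e s = 0 →
        X = kel b + pel V → Pk X = kel b ∧ Pp X = pel V := by
      intro X b V hb hV hX
      have hk1 : kel b ∈ sk := (mem_sk _).2 ⟨b, hb, rfl⟩
      have hp1 : pel V ∈ sp := (mem_sp _).2 ⟨V, hV, rfl⟩
      rw [hX, map_add, map_add, hS.Pk_k _ hk1, hS.Pk_p _ hp1, hS.Pp_k _ hk1, hS.Pp_p _ hp1]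
      simp
    obtain ⟨a1, a2⟩ := e1 _ _ _ hq hW hu
    obtain ⟨b1, b2⟩ := e1 _ _ _ hq hW' hv
    rw [hLL]
    simp only [LL]
    rw [a1, a2, b1, b2, h1, QQ_pel, QQ_pel]
    congr 3
    refine Finset.sum_congr rfl fun s _ => ?_
    have h3 : ∀ a b : ℍ[ℝ], (a * b).re = (b * a).re := fun a b => by
      simp; ring
    rw [h3, star_mul, mul_assoc, ← mul_assoc (star p), A.star_mul_self' hp, one_mul, h3]
  obtain ⟨hF, hLag⟩ := invFinsler_of (𝔸 := End) mem_lieG mem_lieH hred Ad_m Ad_h hL hhom hinv hpos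
  refine ⟨_, hF, fun y v hyv => ?_⟩
  rw [flag_pos_iff mem_lieG mem_lieH hred hF hyv, hLag]
  exact hR y v hyv

end G2

end Pool.Agent.Helper93.Fin
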