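import Mathlib

/-!
# Flag curvature of invariant Finsler metrics on homogeneous spaces: definitions

`𝔸` is a finite dimensional real normed algebra, `G` and `H ≤ G` are groups of units of `𝔸`.
A `G`-invariant Finsler metric on `G/H` is given by its value at the base point `o = H`, a
Minkowski norm on `T_o (G/H) = 𝔤/𝔥` which is invariant under `H`.  We describe it by a function
`F : 𝔸 → ℝ` whose restriction to `𝔤` is invariant under translations by `𝔥`.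

The flag curvature at `o` is computed in the chart `x ↦ exp(x) H`, `x ∈ 𝔪`, where `𝔪` is an
`Ad(H)`-invariant complement of `𝔥` in `𝔤`, with the classical coordinate formulas for the spray
and the Riemann curvature of a Finsler metric.
-/

noncomputable section

namespace Pool.Agent.Helper93.Fin

open scoped ContDiff

/-! ## Finsler geometry in a chart -/

section chart

variable {E : Type*} [NormedAddCommGroup E] [NormedSpace ℝ E]

/-- Fundamental tensor of the Lagrangian `L = F²/2`: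
`g_{(x,y)}(u, v) = ∂²/∂s∂t L(x, y + s u + t v)` at `s = t = 0`. -/
def fund (L : E → E → ℝ) (x y u v : E) : ℝ :=
  fderiv ℝ (fun z => fderiv ℝ (L x) z v) y u

/-- Euler-Lagrange covector: `∂_x ∂_y L (y; w) - ∂_x L (w)`. -/
def eulerLag (L : E → E → ℝ) (x y w : E) : ℝ :=
  fderiv ℝ (fun z => fderiv ℝ (L z) y w) x y - fderiv ℝ (fun z => L z y) x w

/-- Twice the spray coefficients: `Γ^i = 2 G^i = g^{il} (∂²L/∂y^l∂x^k y^k - ∂L/∂x^l)`.
Geodesics are the solutions of `x'' + Γ(x, x') = 0`. -/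
def spray (L : E → E → ℝ) (x y : E) : E :=
  Classical.epsilon fun z => ∀ w, fund L x y z w = eulerLag L x y w

/-- Riemann curvature (Berwald's formula) of a spray `Γ = 2G`, with flagpole `y` at the point `x`:
`R^i_k = 2 ∂G^i/∂x^k - y^j ∂²G^i/∂x^j∂y^k + 2 G^j ∂²G^i/∂y^j∂y^k - ∂G^i/∂y^j ∂G^j/∂y^k`. -/
def riem (Γ : E → E → E) (x y v : E) : E :=
  fderiv ℝ (fun z => Γ z y) x v
    - (1 / 2 : ℝ) • fderiv ℝ (fun z => fderiv ℝ (Γ z) y v) x y
    + (1 / 2 : ℝ) • fderiv ℝ (fun z => fderiv ℝ (Γ x) z v) y (Γ x y)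
    - (1 / 4 : ℝ) • fderiv ℝ (Γ x) y (fderiv ℝ (Γ x) y v)

/-- Flag curvature at the point `x` with flagpole `y` and flag `span(y, v)`. -/
def flagCurv (L : E → E → ℝ) (x y v : E) : ℝ :=
  fund L x y (riem (spray L) x y v) v /
    (fund L x y y y * fund L x y v v - fund L x y y v ^ 2)

/-- All flag curvatures at the point `x` are positive. -/
def PosFlagAt (L : E → E → ℝ) (x : E) : Prop :=
  ∀ y v, LinearIndependent ℝ ![y, v] → 0 < flagCurv L x y v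

end chart

/-! ## Homogeneous spaces -/

section homogeneous

variable {𝔸 : Type*} [NormedRing 𝔸] [NormedAlgebra ℝ 𝔸]

/-- The Lie algebra of a (closed) group of units. -/
def lieAlg (G : Subgroup 𝔸ˣ) : Set 𝔸 :=
  {X | ∀ t : ℝ, ∃ g ∈ G, (g : 𝔸) = NormedSpace.exp (t • X)}

/-- `𝔤 = 𝔥 ⊕ 𝔪` with `𝔪` invariant under `Ad(H)`. -/
structure IsReductive (G H : Subgroup 𝔸ˣ) (m : Submodule ℝ 𝔸) : Prop where
  le : H ≤ G
  sum : ∀ X, X ∈ lieAlg G ↔ ∃ Y ∈ lieAlg H, ∃ Z ∈ m, X = Y + Z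
  disj : ∀ Z ∈ m, Z ∈ lieAlg H → Z = 0
  inv : ∀ g ∈ H, ∀ Z ∈ m, (g : 𝔸) * Z * ((g⁻¹ : 𝔸ˣ) : 𝔸) ∈ m

/-- `F` is (the value at the base point of) a `G`-invariant reversible Finsler metric on `G/H`. -/
structure InvFinsler (G H : Subgroup 𝔸ˣ) (m : Submodule ℝ 𝔸) (F : 𝔸 → ℝ) : Prop where
  horiz : ∀ X ∈ lieAlg G, ∀ Y ∈ lieAlg H, F (X + Y) = F X
  inv : ∀ h ∈ H, ∀ X ∈ lieAlg G, F ((h : 𝔸) * X * ((h⁻¹ : 𝔸ˣ) : 𝔸)) = F X
  homog : ∀ (c : ℝ), ∀ X ∈ lieAlg G, F (c • X) = |c| * F X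
  pos : ∀ Z ∈ m, Z ≠ 0 → 0 < F Z
  smooth : ContDiffOn ℝ ∞ (fun Z : m => F Z) {0}ᶜ
  convex : ∀ Z : m, Z ≠ 0 → ∀ W : m, W ≠ 0 →
    0 < fderiv ℝ (fun z => fderiv ℝ (fun y : m => F y ^ 2 / 2) z W) Z W

/-- `L = F²/2` in the chart `𝔪 → G/H`, `x ↦ exp(x) H`: the curve `s ↦ exp(x + s y) H` has at
`s = 0` the velocity `exp(x) · (exp(-x) * (D exp)_x y)` modulo `𝔥`. -/
def chartLag (m : Submodule ℝ 𝔸) (F : 𝔸 → ℝ) (x y : m) : ℝ :=
  F (NormedSpace.exp (-(x : 𝔸)) * fderiv ℝ NormedSpace.exp (x : 𝔸) (y : 𝔸)) ^ 2 / 2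

/-- `G/H` admits a `G`-invariant reversible Finsler metric with positive flag curvature. -/
def AdmitsPositive (G H : Subgroup 𝔸ˣ) (m : Submodule ℝ 𝔸) : Prop :=
  ∃ F : 𝔸 → ℝ, InvFinsler G H m F ∧ PosFlagAt (chartLag m F) 0

end homogeneous

end Pool.Agent.Helper93.Fin
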