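import Pool.Agent.Helper93.Fin.Work
import Pool.Agent.helper77.FinD

/-!
# Module E: the spray vector field at the base point
-/

noncomputable section

namespace Pool.Agent.Helper93.Fin

open scoped ContDiff

/-! ### Linear systems with a positive definite bilinear form -/

section lin

variable {E : Type*} [NormedAddCommGroup E] [NormedSpace ℝ E] [FiniteDimensional ℝ E]

theorem form_equiv {B : E →L[ℝ] E →L[ℝ] ℝ} (hB : ∀ w, w ≠ 0 → 0 < B w w) :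
    ∃ e : E ≃L[ℝ] (E →L[ℝ] ℝ), (e : E →L[ℝ] E →L[ℝ] ℝ) = B := by
  have hinj : Function.Injective B := by
    rw [injective_iff_map_eq_zero]
    intro a ha
    by_contra hne
    have h1 := hB a hne
    rw [ha] at h1
    simp at h1
  have hdim : Module.finrank ℝ E = Module.finrank ℝ (E →L[ℝ] ℝ) := by
    rw [← (LinearMap.toContinuousLinearMap : (E →ₗ[ℝ] ℝ) ≃ₗ[ℝ] _).finrank_eq]
    exact (Subspace.dual_finrank_eq (K := ℝ) (V := E)).symm
  let e := LinearEquiv.ofInjectiveOfFinrankEq ((B : E →L[ℝ] E →L[ℝ] ℝ) : E →ₗ[ℝ] E →L[ℝ] ℝ)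
    hinj hdim
  exact ⟨e.toContinuousLinearEquiv, by ext1 x; rfl⟩

theorem form_inj {B : E →L[ℝ] E →L[ℝ] ℝ} (hB : ∀ w, w ≠ 0 → 0 < B w w) {a b : E}
    (h : ∀ w, B a w = B b w) : a = b := by
  obtain ⟨e, he⟩ := form_equiv hB
  apply e.injective
  ext w
  have := h w
  rw [← he] at this
  exact this

theorem form_solve {B : E →L[ℝ] E →L[ℝ] ℝ} (hB : ∀ w, w ≠ 0 → 0 < B w w) (c : E →L[ℝ] ℝ) :
    ∃ x, ∀ w, B x w = c w := by
  obtain ⟨e, he⟩ := form_equiv hB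
  refine ⟨e.symm c, fun w => ?_⟩
  rw [← he]
  simp

theorem form_smooth {H : E → E →L[ℝ] E →L[ℝ] ℝ} {c : E → E →L[ℝ] ℝ} {x : E → E}
    (hH : ContDiffOn ℝ ∞ H {0}ᶜ) (hc : ContDiffOn ℝ ∞ c {0}ᶜ)
    (hpos : ∀ u, u ≠ 0 → ∀ w, w ≠ 0 → 0 < H u w w)
    (hx : ∀ u, u ≠ 0 → ∀ w, H u (x u) w = c u w) : ContDiffOn ℝ ∞ x {0}ᶜ := by
  have k1 : ContDiffOn ℝ ∞ (fun u => ContinuousLinearMap.inverse (H u)) {0}ᶜ := by
    intro u hu
    obtain ⟨e, he⟩ := form_equiv (hpos u hu)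
    have h1 : ContDiffAt ℝ ∞ ContinuousLinearMap.inverse (H u) := by
      rw [← he]
      exact contDiffAt_map_inverse e
    exact (h1.comp u (contDiffAt_of_ne hH hu)).contDiffWithinAt
  refine (k1.clm_apply hc).congr fun u hu => ?_
  obtain ⟨e, he⟩ := form_equiv (hpos u hu)
  rw [← he, ContinuousLinearMap.inverse_equiv]
  have : c u = e (x u) := by
    ext w
    rw [← hx u hu w, ← he]
    rfl
  rw [this]
  simp

omit [FiniteDimensional ℝ E] in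
theorem form_deriv {H : E → E →L[ℝ] E →L[ℝ] ℝ} {x : E → E} {u : E}
    (hH : DifferentiableAt ℝ H u) (hx : DifferentiableAt ℝ x u) (z : E) :
    HasFDerivAt (fun y => H y (x y) z) (((fderiv ℝ H u).flip (x u)).flip z
      + ((H u).flip z).comp (fderiv ℝ x u)) u := by
  have h1 := (hH.hasFDerivAt.clm_apply hx.hasFDerivAt).clm_apply (hasFDerivAt_const z u)
  refine h1.congr_fderiv ?_
  ext b
  simp [add_comm]

omit [FiniteDimensional ℝ E] in
theorem covec_smooth {f : E → ℝ} (hf : ContDiffOn ℝ ∞ f {0}ᶜ) (B : E →L[ℝ] E →L[ℝ] E) :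
    ContDiffOn ℝ ∞ (fun u => -((fderiv ℝ f u).comp (B u))) {0}ᶜ :=
  ((smooth_fderiv hf).clm_comp B.contDiff.contDiffOn).neg

end lin

variable {𝔸 : Type*} [NormedRing 𝔸] [NormedAlgebra ℝ 𝔸]
variable {g h m : Submodule ℝ 𝔸} {P : 𝔸 →L[ℝ] m} {L : m → ℝ}

/-- the commutator as a continuous bilinear map -/
def adL : 𝔸 →L[ℝ] 𝔸 →L[ℝ] 𝔸 :=
  ContinuousLinearMap.mul ℝ 𝔸 - (ContinuousLinearMap.mul ℝ 𝔸).flip

@[simp] theorem adL_apply (X Y : 𝔸) : adL X Y = ⁅X, Y⁆ := by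
  simp [adL, Ring.lie_def]

/-- `(u, w) ↦ [u, w]_𝔪` as a continuous bilinear map -/
def Pb (P : 𝔸 →L[ℝ] m) : m →L[ℝ] m →L[ℝ] m :=
  (ContinuousLinearMap.compL ℝ m 𝔸 m P).comp (adL.bilinearComp m.subtypeL m.subtypeL)

@[simp] theorem Pb_apply (P : 𝔸 →L[ℝ] m) (u w : m) : Pb P u w = P ⁅(u : 𝔸), (w : 𝔸)⁆ := by
  simp [Pb]

/-- `u ↦ [Y, u]_𝔪` -/
def Py (P : 𝔸 →L[ℝ] m) (Y : 𝔸) : m →L[ℝ] m := (P.comp (adL Y)).comp m.subtypeL

@[simp] theorem Py_apply (P : 𝔸 →L[ℝ] m) (Y : 𝔸) (u : m) : Py P Y u = P ⁅Y, (u : 𝔸)⁆ := by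
  simp [Py]

theorem D1_def (L : m → ℝ) (u a : m) : D1 L u a = fderiv ℝ L u a := rfl

theorem inv2 (_hR : RedData g h m P) (hL : MinkData h m P L) {Y : 𝔸} (hY : Y ∈ h) {u : m}
    (hu : u ≠ 0) (z : m) : D2 L u (P ⁅Y, (u : 𝔸)⁆) z = - D1 L u (P ⁅Y, (z : 𝔸)⁆) := by
  have h0 : (fun x : m => fderiv ℝ L x (Py P Y x)) =ᶠ[nhds u] fun _ => 0 := by
    filter_upwards [eventually_ne' hu] with x hx
    have := hL.inv Y hY x hx
    rw [D1_def] at this
    simpa using this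
  have h1 : HasFDerivAt (fun x : m => fderiv ℝ L x (Py P Y x))
      ((fderiv ℝ L u).comp (Py P Y) + (fderiv ℝ (fderiv ℝ L) u).flip (Py P Y u)) u := by
    have hd : DifferentiableAt ℝ (fderiv ℝ L) u :=
      differentiableAt_of_ne (smooth_fderiv hL.smooth) hu
    have := hd.hasFDerivAt.clm_apply (Py P Y).hasFDerivAt
    exact this
  have h2 := h1.fderiv
  rw [h0.fderiv_eq] at h2
  have h3 := congrArg (fun T : m →L[ℝ] ℝ => T z) h2
  simp at h3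
  rw [D2_eq' hL.smooth hu, D1_def]
  linarith

/-- the Hessian as a map `𝔪 → 𝔪*` -/
def Hs (L : m → ℝ) (u : m) : m →L[ℝ] m →L[ℝ] ℝ := fderiv ℝ (fderiv ℝ L) u

theorem Hs_apply (hf : ContDiffOn ℝ ∞ L {0}ᶜ) {u : m} (hu : u ≠ 0) (a b : m) :
    Hs L u a b = D2 L u a b := by
  rw [D2_symm hf hu, D2_eq' hf hu]; rfl

theorem Hs_pos (hL : MinkData h m P L) {u : m} (hu : u ≠ 0) (w : m) (hw : w ≠ 0) :
    0 < Hs L u w w := by
  rw [Hs_apply hL.smooth hu]; exact hL.pos u hu w hw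

/-- the covector `w ↦ - DL_u([u, w]_𝔪)` -/
def cov (P : 𝔸 →L[ℝ] m) (L : m → ℝ) (u : m) : m →L[ℝ] ℝ := -((fderiv ℝ L u).comp (Pb P u))

theorem cov_apply (u w : m) : cov P L u w = - D1 L u (P ⁅(u : 𝔸), (w : 𝔸)⁆) := by
  simp [cov, D1_def]

theorem cov_smooth (hL : ContDiffOn ℝ ∞ L {0}ᶜ) : ContDiffOn ℝ ∞ (cov P L) {0}ᶜ :=
  covec_smooth hL (Pb P)

variable [FiniteDimensional ℝ 𝔸]

theorem D2_inj (hL : MinkData h m P L) {u : m} (hu : u ≠ 0) {a b : m}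
    (hab : ∀ w, D2 L u a w = D2 L u b w) : a = b := by
  apply form_inj (Hs_pos hL hu)
  intro w
  rw [Hs_apply hL.smooth hu, Hs_apply hL.smooth hu, hab w]

theorem D2_solve (hL : MinkData h m P L) {u : m} (hu : u ≠ 0) (c : m →L[ℝ] ℝ) :
    ∃ x : m, ∀ w, D2 L u x w = c w := by
  obtain ⟨x, hx⟩ := form_solve (Hs_pos hL hu) c
  exact ⟨x, fun w => by rw [← Hs_apply hL.smooth hu, hx]⟩

theorem eta_spec (_hR : RedData g h m P) (hL : MinkData h m P L) {u : m} (hu : u ≠ 0) (w : m) :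
    D2 L u (eta P L u) w = - D1 L u (P ⁅(u : 𝔸), (w : 𝔸)⁆) := by
  have hex : ∃ z : m, ∀ w : m, D2 L u z w = - D1 L u (P ⁅(u : 𝔸), (w : 𝔸)⁆) := by
    obtain ⟨x, hx⟩ := D2_solve hL hu (cov P L u)
    exact ⟨x, fun w => by rw [hx, cov_apply]⟩
  exact Classical.epsilon_spec hex w

theorem eta_unique (hR : RedData g h m P) (hL : MinkData h m P L) {u : m} (hu : u ≠ 0) {z : m}
    (hz : ∀ w : m, D2 L u z w = - D1 L u (P ⁅(u : 𝔸), (w : 𝔸)⁆)) : eta P L u = z := by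
  apply D2_inj hL hu
  intro w
  rw [eta_spec hR hL hu w, hz w]

theorem eta_smooth (hR : RedData g h m P) (hL : MinkData h m P L) :
    ContDiffOn ℝ ∞ (eta P L) {0}ᶜ := by
  refine form_smooth (H := Hs L) (c := cov P L) (smooth_fderiv (smooth_fderiv hL.smooth))
    (cov_smooth hL.smooth) (fun u hu w hw => Hs_pos hL hu w hw) (fun u hu w => ?_)
  rw [Hs_apply hL.smooth hu, eta_spec hR hL hu w, cov_apply]

theorem deta_spec (hR : RedData g h m P) (hL : MinkData h m P L) {u : m} (hu : u ≠ 0)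
    (b z : m) : D2 L u (fderiv ℝ (eta P L) u b) z =
      - D2 L u b (P ⁅(u : 𝔸), (z : 𝔸)⁆) - D1 L u (P ⁅(b : 𝔸), (z : 𝔸)⁆)
        - D3 L u b (eta P L u) z := by
  have h0 : (fun x : m => Hs L x (eta P L x) z) =ᶠ[nhds u]
      fun x : m => -(fderiv ℝ L x ((Pb P).flip z x)) := by
    filter_upwards [eventually_ne' hu] with x hx
    rw [Hs_apply hL.smooth hx, eta_spec hR hL hx z, D1_def]
    simp
  have hd1 : DifferentiableAt ℝ (fderiv ℝ L) u :=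
    differentiableAt_of_ne (smooth_fderiv hL.smooth) hu
  have hd2 : DifferentiableAt ℝ (Hs L) u :=
    differentiableAt_of_ne (smooth_fderiv (smooth_fderiv hL.smooth)) hu
  have hde : DifferentiableAt ℝ (eta P L) u := differentiableAt_of_ne (eta_smooth hR hL) hu
  have h1 := form_deriv hd2 hde z
  have h2 : HasFDerivAt (fun x : m => fderiv ℝ L x ((Pb P).flip z x))
      ((fderiv ℝ L u).comp ((Pb P).flip z) + (fderiv ℝ (fderiv ℝ L) u).flip ((Pb P).flip z u)) u :=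
    hd1.hasFDerivAt.clm_apply ((Pb P).flip z).hasFDerivAt
  have h3 := h1.fderiv
  rw [h0.fderiv_eq, h2.fun_neg.fderiv] at h3
  have h4 := congrArg (fun T : m →L[ℝ] ℝ => T b) h3
  simp only [_root_.neg_apply, _root_.add_apply, ContinuousLinearMap.comp_apply,
    ContinuousLinearMap.flip_apply, Pb_apply] at h4
  rw [Hs_apply hL.smooth hu] at h4
  have e2 : D2 L u b (P ⁅(u : 𝔸), (z : 𝔸)⁆) = fderiv ℝ (fderiv ℝ L) u b (P ⁅(u : 𝔸), (z : 𝔸)⁆) := by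
    rw [D2_symm hL.smooth hu, D2_eq' hL.smooth hu]
  have e3 : D3 L u b (eta P L u) z = (fderiv ℝ (Hs L) u b) (eta P L u) z := by
    rw [D3_symm13 hL.smooth hu, D3_eq' hL.smooth hu]; rfl
  rw [e2, e3, D1_def]
  linarith

end Pool.Agent.Helper93.Fin
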