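import Pool.Agent.Helper93.Fin.E

/-!
# Module Q: the curvature form
-/

noncomputable section

namespace Pool.Agent.Helper93.Fin

open scoped ContDiff

section comp

variable {E : Type*} [NormedAddCommGroup E] [NormedSpace ℝ E] {f : E → ℝ}

theorem D1_comp (hf : ContDiffOn ℝ ∞ f {0}ᶜ) {u : E} (hu : u ≠ 0) {v : E → E}
    (hv : DifferentiableAt ℝ v u) :
    ∃ T : E →L[ℝ] ℝ, HasFDerivAt (fun z => D1 f z (v z)) T u ∧
      ∀ x, T x = D2 f u (v u) x + D1 f u (fderiv ℝ v u x) := by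
  have hd : DifferentiableAt ℝ (fderiv ℝ f) u := differentiableAt_of_ne (smooth_fderiv hf) hu
  have h1 := hd.hasFDerivAt.clm_apply hv.hasFDerivAt
  refine ⟨_, h1, fun x => ?_⟩
  rw [D2_eq' hf hu]
  simp [D1, add_comm]

theorem D2_comp (hf : ContDiffOn ℝ ∞ f {0}ᶜ) {u : E} (hu : u ≠ 0) {v : E → E}
    (hv : DifferentiableAt ℝ v u) (y : E) :
    ∃ T : E →L[ℝ] ℝ, HasFDerivAt (fun z => D2 f z (v z) y) T u ∧
      ∀ x, T x = D3 f u (v u) y x + D2 f u (fderiv ℝ v u x) y := by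
  obtain ⟨T, hT, h⟩ := D1_comp (D1_smooth hf y) hu hv
  refine ⟨T, hT.congr_of_eventuallyEq ?_, fun x => ?_⟩
  · filter_upwards [eventually_ne' hu] with z hz
    rw [D2_symm hf hz]; rfl
  · rw [h x, D3_symm12 hf hu, D2_symm hf hu _ y]; rfl

theorem D3_comp (hf : ContDiffOn ℝ ∞ f {0}ᶜ) {u : E} (hu : u ≠ 0) {v : E → E}
    (hv : DifferentiableAt ℝ v u) (b y : E) :
    ∃ T : E →L[ℝ] ℝ, HasFDerivAt (fun z => D3 f z b (v z) y) T u ∧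
      ∀ x, T x = D4 f u b (v u) y x + D3 f u b (fderiv ℝ v u x) y :=
  D2_comp (D1_smooth hf b) hu hv y

end comp

section bracket

variable {R : Type*} [Ring R]

theorem br_add (X Y Z : R) : ⁅X, Y + Z⁆ = ⁅X, Y⁆ + ⁅X, Z⁆ := by
  simp only [Ring.lie_def]; noncomm_ring

theorem add_br (X Y Z : R) : ⁅X + Y, Z⁆ = ⁅X, Z⁆ + ⁅Y, Z⁆ := by
  simp only [Ring.lie_def]; noncomm_ring

theorem br_skew (X Y : R) : ⁅X, Y⁆ = -⁅Y, X⁆ := by
  simp only [Ring.lie_def]; noncomm_ring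

theorem br_self (X : R) : ⁅X, X⁆ = 0 := by
  simp only [Ring.lie_def]; noncomm_ring

theorem br_zero (X : R) : ⁅X, (0 : R)⁆ = 0 := by
  simp only [Ring.lie_def]; noncomm_ring

end bracket

variable {𝔸 : Type*} [NormedRing 𝔸] [NormedAlgebra ℝ 𝔸] [FiniteDimensional ℝ 𝔸]
variable {g h m : Submodule ℝ 𝔸} {P : 𝔸 →L[ℝ] m} {L : m → ℝ}

/-- second derivative of `η` -/
theorem d2eta_spec (hR : RedData g h m P) (hL : MinkData h m P L) {u : m} (hu : u ≠ 0)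
    (b x y : m) :
    D2 L u (fderiv ℝ (fun z => fderiv ℝ (eta P L) z b) u x) y =
      - D3 L u (fderiv ℝ (eta P L) u b) y x
      - D3 L u b (P ⁅(u : 𝔸), (y : 𝔸)⁆) x - D2 L u b (P ⁅(x : 𝔸), (y : 𝔸)⁆)
      - D2 L u (P ⁅(b : 𝔸), (y : 𝔸)⁆) x
      - D4 L u b (eta P L u) y x - D3 L u b (fderiv ℝ (eta P L) u x) y := by
  have hes := eta_smooth hR hL
  have hde : DifferentiableAt ℝ (eta P L) u := differentiableAt_of_ne hes hu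
  have hdv : DifferentiableAt ℝ (fun z => fderiv ℝ (eta P L) z b) u :=
    differentiableAt_of_ne (smooth_fderiv_apply hes b) hu
  obtain ⟨T1, h1, e1⟩ := D2_comp hL.smooth hu hdv y
  obtain ⟨T2, h2, e2⟩ := D2_comp hL.smooth hu (v := fun z : m => (Pb P).flip y z)
    ((Pb P).flip y).differentiableAt b
  obtain ⟨T3, h3, e3⟩ := D1_comp hL.smooth hu (v := fun _ : m => (P ⁅(b : 𝔸), (y : 𝔸)⁆))
    (differentiableAt_const _)
  obtain ⟨T4, h4, e4⟩ := D3_comp hL.smooth hu hde b y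
  have h0 : (fun z : m => D2 L z (fderiv ℝ (eta P L) z b) y) =ᶠ[nhds u]
      fun z : m => - D2 L z ((Pb P).flip y z) b - D1 L z (P ⁅(b : 𝔸), (y : 𝔸)⁆)
        - D3 L z b (eta P L z) y := by
    filter_upwards [eventually_ne' hu] with z hz
    rw [deta_spec hR hL hz, D2_symm hL.smooth hz b]
    simp
  have h5 := h1.fderiv
  rw [h0.fderiv_eq, ((h2.fun_neg.fun_sub h3).fun_sub h4).fderiv] at h5
  have h6 := congrArg (fun T : m →L[ℝ] ℝ => T x) h5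
  have e5 : fderiv ℝ (fun z : m => (Pb P).flip y z) u = (Pb P).flip y :=
    ((Pb P).flip y).fderiv
  simp only [_root_.neg_apply, _root_.sub_apply, e1, e2, e3, e4, e5] at h6
  simp only [ContinuousLinearMap.flip_apply, Pb_apply,
    fderiv_fun_const, Pi.zero_apply, _root_.zero_apply] at h6
  have h7 : D1 L u 0 = 0 := by simp [D1]
  rw [h7] at h6
  rw [D2_symm hL.smooth hu b, D3_symm12 hL.smooth hu b]
  linarith

theorem D2_Rop (hR : RedData g h m P) (hL : MinkData h m P L) {u : m} (hu : u ≠ 0) (b : m) :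
    D2 L u (Rop P L u b) b = Rform P L u b := by
  have hs := hL.smooth
  obtain ⟨w, hw⟩ : ∃ w : m, w = P ⁅(u : 𝔸), (b : 𝔸)⁆ := ⟨_, rfl⟩
  obtain ⟨η, hη⟩ : ∃ η : m, η = eta P L u := ⟨_, rfl⟩
  obtain ⟨d, hd⟩ : ∃ d : m, d = fderiv ℝ (eta P L) u b := ⟨_, rfl⟩
  obtain ⟨k, hk⟩ : ∃ k : m, k = fderiv ℝ (eta P L) u η := ⟨_, rfl⟩
  obtain ⟨Z, hZ⟩ : ∃ Z : 𝔸, Z = ⁅(u : 𝔸), (b : 𝔸)⁆ - (w : 𝔸) := ⟨_, rfl⟩
  have hum : (u : 𝔸) ∈ g := hR.m_le u.2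
  have hbm : (b : 𝔸) ∈ g := hR.m_le b.2
  have hZh : Z ∈ h := by rw [hZ, hw]; exact hR.res _ (hR.lie _ hum _ hbm)
  have hub : ⁅(u : 𝔸), (b : 𝔸)⁆ = (w : 𝔸) + Z := by rw [hZ]; abel
  -- the second derivative term
  have t2 := d2eta_spec hR hL hu b η b
  -- the first derivative terms
  have tw := deta_spec hR hL hu w b
  have td := deta_spec hR hL hu d b
  have bz : ∀ z : m, D2 L u (P ⁅(u : 𝔸), (z : 𝔸)⁆) b =
      - D2 L u d z - D1 L u (P ⁅(b : 𝔸), (z : 𝔸)⁆) - D3 L u b η z := by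
    intro z
    have := deta_spec hR hL hu b z
    rw [← hd, ← hη] at this
    rw [D2_symm hs hu _ b]
    linarith
  have iv := inv2 hR hL hZh hu b
  have e1 : P ⁅(u : 𝔸), ⁅(u : 𝔸), (b : 𝔸)⁆⁆ = P ⁅(u : 𝔸), (w : 𝔸)⁆ - P ⁅Z, (u : 𝔸)⁆ := by
    rw [hub, br_add, map_add, br_skew (u : 𝔸) Z, map_neg, sub_eq_add_neg]
  have e2 : P ⁅(b : 𝔸), ⁅(u : 𝔸), (b : 𝔸)⁆⁆ = P ⁅(b : 𝔸), (w : 𝔸)⁆ - P ⁅Z, (b : 𝔸)⁆ := by
    rw [hub, br_add, map_add, br_skew (b : 𝔸) Z, map_neg, sub_eq_add_neg]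
  have e3 : D1 L u (P ⁅(w : 𝔸), (b : 𝔸)⁆) = - D1 L u (P ⁅(b : 𝔸), (w : 𝔸)⁆) := by
    rw [br_skew (w : 𝔸), map_neg]; simp [D1]
  have e4 : D1 L u (P ⁅(d : 𝔸), (b : 𝔸)⁆) = - D1 L u (P ⁅(b : 𝔸), (d : 𝔸)⁆) := by
    rw [br_skew (d : 𝔸), map_neg]; simp [D1]
  have e5 : D2 L u b (P ⁅(η : 𝔸), (b : 𝔸)⁆) = - D2 L u (P ⁅(b : 𝔸), (η : 𝔸)⁆) b := by
    rw [D2_symm hs hu b, br_skew (η : 𝔸), map_neg, ← Hs_apply hs hu, ← Hs_apply hs hu]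
    simp
  have e6 : P ⁅(b : 𝔸), (b : 𝔸)⁆ = 0 := by rw [br_self, map_zero]
  have e7 : D2 L u (P ⁅(b : 𝔸), (b : 𝔸)⁆) η = 0 := by
    rw [e6, ← Hs_apply hs hu]; simp
  have bw := bz w
  have bd := bz d
  have main : D2 L u (Rop P L u b) b =
      (1 / 2) * D2 L u (P ⁅(b : 𝔸), (η : 𝔸)⁆) b
      - (1 / 4) * (D2 L u (P ⁅(u : 𝔸), (w : 𝔸)⁆) b - D2 L u (P ⁅Z, (u : 𝔸)⁆) b)
      + (3 / 4) * D2 L u (fderiv ℝ (eta P L) u w) b
      + (3 / 4) * D2 L u (P ⁅Z, (u : 𝔸)⁆) b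
      - (1 / 4) * D2 L u (P ⁅(u : 𝔸), (d : 𝔸)⁆) b
      + (1 / 2) * D2 L u (fderiv ℝ (fun z => fderiv ℝ (eta P L) z b) u η) b
      - (1 / 4) * D2 L u (fderiv ℝ (eta P L) u d) b := by
    rw [Rop, e1, ← hw, ← hη, ← hd, ← hZ]
    simp only [← Hs_apply hs hu, map_add, map_sub, map_smul, _root_.add_apply, _root_.sub_apply,
      _root_.smul_apply, smul_eq_mul]
  have q1 : D2 L u (d + w) (d + w) = D2 L u d d + 2 * D2 L u d w + D2 L u w w := by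
    rw [D2_add hs hu, D2_add_right hs hu, D2_add_right hs hu, D2_symm hs hu w d]; ring
  have q2 : D1 L u (P ⁅(b : 𝔸), (w : 𝔸)⁆ - P ⁅Z, (b : 𝔸)⁆) =
      D1 L u (P ⁅(b : 𝔸), (w : 𝔸)⁆) - D1 L u (P ⁅Z, (b : 𝔸)⁆) := by simp [D1]
  have s1 : D3 L u w η b = D3 L u b η w := D3_symm13 hs hu _ _ _
  have s2 : D3 L u d η b = D3 L u b η d := D3_symm13 hs hu _ _ _
  have s3 : D3 L u d b η = D3 L u b η d := by
    rw [D3_symm12 hs hu, D3_symm23 hs hu]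
  have s4 : D3 L u b w η = D3 L u b η w := D3_symm23 hs hu _ _ _
  have s5 : D3 L u η b w = D3 L u b η w := D3_symm12 hs hu _ _ _
  have s6 : D3 L u b k b = D3 L u k b b := D3_symm12 hs hu _ _ _
  have s7 : D4 L u b η b η = D4 L u η η b b := by
    rw [D4_symm12 hs hu, D4_symm34 hs hu, D4_symm23 hs hu]
  have s8 : D2 L u w (P ⁅(u : 𝔸), (b : 𝔸)⁆) = D2 L u w w := by rw [← hw]
  have s9 : D2 L u d (P ⁅(u : 𝔸), (b : 𝔸)⁆) = D2 L u d w := by rw [← hw]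
  rw [main, Rform, e2, ← hw, ← hη, ← hd, ← hk, q1, q2]
  rw [← hη] at tw td t2
  rw [← hk, ← hd, ← hw] at t2
  rw [e7] at t2
  linarith

theorem Rform_equil (hR : RedData g h m P) (hL : MinkData h m P L) {u : m} (hu : u ≠ 0) (b : m)
    (hη : ∀ z : m, D1 L u (P ⁅(u : 𝔸), (z : 𝔸)⁆) = 0) {d : m}
    (hd : ∀ z : m, D2 L u d z =
      - D2 L u b (P ⁅(u : 𝔸), (z : 𝔸)⁆) - D1 L u (P ⁅(b : 𝔸), (z : 𝔸)⁆)) :
    Rform P L u b = (1 / 4) * D2 L u (d + P ⁅(u : 𝔸), (b : 𝔸)⁆) (d + P ⁅(u : 𝔸), (b : 𝔸)⁆)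
      - D2 L u (P ⁅(u : 𝔸), (b : 𝔸)⁆) (P ⁅(u : 𝔸), (b : 𝔸)⁆)
      + D1 L u (P ⁅(b : 𝔸), ⁅(u : 𝔸), (b : 𝔸)⁆⁆) := by
  have hs := hL.smooth
  have h0 : eta P L u = 0 := by
    apply eta_unique hR hL hu
    intro w
    rw [hη w, ← Hs_apply hs hu]
    simp
  have z3 : ∀ y z : m, D3 L u y 0 z = 0 := by
    intro y z
    rw [D3_symm12 hs hu]
    have := D3_smul hs hu 0 (0 : m) y z
    simpa using this
  have h1 : fderiv ℝ (eta P L) u b = d := by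
    apply D2_inj hL hu
    intro z
    rw [deta_spec hR hL hu, hd z, h0, z3]
    ring
  have h2 : fderiv ℝ (eta P L) u (eta P L u) = 0 := by rw [h0, map_zero]
  have h3 : D3 L u (eta P L u) b (P ⁅(u : 𝔸), (b : 𝔸)⁆) = 0 := by
    rw [h0, D3_symm12 hs hu]; exact z3 _ _
  have h4 : D3 L u (fderiv ℝ (eta P L) u (eta P L u)) b b = 0 := by
    rw [h2, D3_symm12 hs hu]; exact z3 _ _
  have h5 : D4 L u (eta P L u) (eta P L u) b b = 0 := by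
    rw [h0]
    have := D4_smul hs hu 0 (0 : m) 0 b b
    simpa using this
  have h6 : D2 L u (P ⁅(b : 𝔸), (eta P L u : 𝔸)⁆) b = 0 := by
    rw [h0]
    rw [ZeroMemClass.coe_zero, br_zero, map_zero]
    rw [← Hs_apply hs hu]; simp
  rw [Rform, h1, h3, h4, h5, h6]
  ring

end Pool.Agent.Helper93.Fin
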