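import Pool.Agent.Helper93.Fin.Defs

/-!
# Flag curvature of invariant Finsler metrics: working definitions

Higher derivatives `D1 … D4` of a function, the map `Theta x y = exp(-x) * (D exp)_x y`, the spray
field `eta` and the curvature form `Rform`.
-/

noncomputable section

namespace Pool.Agent.Helper93.Fin

open scoped ContDiff

section deriv

variable {E : Type*} [NormedAddCommGroup E] [NormedSpace ℝ E]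

/-- `Df_u(a)` -/
def D1 (f : E → ℝ) (u a : E) : ℝ := fderiv ℝ f u a

/-- `D²f_u(a, b)` -/
def D2 (f : E → ℝ) (u a b : E) : ℝ := fderiv ℝ (fun z => D1 f z a) u b

/-- `D³f_u(a, b, c)` -/
def D3 (f : E → ℝ) (u a b c : E) : ℝ := fderiv ℝ (fun z => D2 f z a b) u c

/-- `D⁴f_u(a, b, c, e)` -/
def D4 (f : E → ℝ) (u a b c e : E) : ℝ := fderiv ℝ (fun z => D3 f z a b c) u e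

end deriv

section alg

variable {𝔸 : Type*} [NormedRing 𝔸] [NormedAlgebra ℝ 𝔸]

/-- `Θ_x(y) = exp(-x) * (D exp)_x(y)` -/
def Theta (x : 𝔸) : 𝔸 →L[ℝ] 𝔸 :=
  (ContinuousLinearMap.mul ℝ 𝔸 (NormedSpace.exp (-x))).comp (fderiv ℝ NormedSpace.exp x)

/-- `𝔤 = 𝔥 ⊕ 𝔪` is a reductive decomposition, and `P : 𝔸 → 𝔪` extends the projection
`𝔤 → 𝔪` along `𝔥`. -/
structure RedData (g h m : Submodule ℝ 𝔸) (P : 𝔸 →L[ℝ] m) : Prop where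
  lie : ∀ X ∈ g, ∀ Y ∈ g, ⁅X, Y⁆ ∈ g
  m_le : m ≤ g
  h_le : h ≤ g
  hh : ∀ X ∈ h, ∀ Y ∈ h, ⁅X, Y⁆ ∈ h
  P_m : ∀ z : m, P z = z
  P_h : ∀ Y ∈ h, P Y = 0
  res : ∀ X ∈ g, X - P X ∈ h
  ad : ∀ Y ∈ h, ∀ z ∈ m, ⁅Y, z⁆ ∈ m

/-- infinitesimally invariant Lagrangian with positive definite Hessian on `𝔪 ∖ 0` -/
structure MinkData (h m : Submodule ℝ 𝔸) (P : 𝔸 →L[ℝ] m) (L : m → ℝ) : Prop where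
  smooth : ContDiffOn ℝ ∞ L {0}ᶜ
  pos : ∀ u : m, u ≠ 0 → ∀ w : m, w ≠ 0 → 0 < D2 L u w w
  inv : ∀ Y ∈ h, ∀ u : m, u ≠ 0 → D1 L u (P ⁅Y, (u : 𝔸)⁆) = 0

/-- the spray vector field at the base point: `D²L_u(η, w) = - DL_u([u, w]_𝔪)` -/
def eta {m : Submodule ℝ 𝔸} (P : 𝔸 →L[ℝ] m) (L : m → ℝ) (u : m) : m :=
  Classical.epsilon fun z => ∀ w : m, D2 L u z w = - D1 L u (P ⁅(u : 𝔸), (w : 𝔸)⁆)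

/-- curvature operator in terms of `η` -/
def Rop {m : Submodule ℝ 𝔸} (P : 𝔸 →L[ℝ] m) (L : m → ℝ) (u v : m) : m :=
  (1 / 2 : ℝ) • P ⁅(v : 𝔸), (eta P L u : 𝔸)⁆
    - (1 / 4 : ℝ) • P ⁅(u : 𝔸), ⁅(u : 𝔸), (v : 𝔸)⁆⁆
    + (3 / 4 : ℝ) • fderiv ℝ (eta P L) u (P ⁅(u : 𝔸), (v : 𝔸)⁆)
    + (3 / 4 : ℝ) • P ⁅⁅(u : 𝔸), (v : 𝔸)⁆ - (P ⁅(u : 𝔸), (v : 𝔸)⁆ : 𝔸), (u : 𝔸)⁆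
    - (1 / 4 : ℝ) • P ⁅(u : 𝔸), (fderiv ℝ (eta P L) u v : 𝔸)⁆
    + (1 / 2 : ℝ) • fderiv ℝ (fun z => fderiv ℝ (eta P L) z v) u (eta P L u)
    - (1 / 4 : ℝ) • fderiv ℝ (eta P L) u (fderiv ℝ (eta P L) u v)

/-- the curvature form -/
def Rform {m : Submodule ℝ 𝔸} (P : 𝔸 →L[ℝ] m) (L : m → ℝ) (u b : m) : ℝ :=
  (1 / 4) * D2 L u (fderiv ℝ (eta P L) u b + P ⁅(u : 𝔸), (b : 𝔸)⁆)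
      (fderiv ℝ (eta P L) u b + P ⁅(u : 𝔸), (b : 𝔸)⁆)
    - D2 L u (P ⁅(u : 𝔸), (b : 𝔸)⁆) (P ⁅(u : 𝔸), (b : 𝔸)⁆)
    + D1 L u (P ⁅(b : 𝔸), ⁅(u : 𝔸), (b : 𝔸)⁆⁆)
    + D2 L u (P ⁅(b : 𝔸), (eta P L u : 𝔸)⁆) b
    - D3 L u (eta P L u) b (P ⁅(u : 𝔸), (b : 𝔸)⁆)
    - (1 / 2) * (D4 L u (eta P L u) (eta P L u) b b
        + D3 L u (fderiv ℝ (eta P L) u (eta P L u)) b b)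

/-- `L = F²/2` on `𝔪` -/
def Lag (m : Submodule ℝ 𝔸) (F : 𝔸 → ℝ) (z : m) : ℝ := F (z : 𝔸) ^ 2 / 2

/-! ### Symmetric pairs -/

/-- `𝔤 = 𝔥 ⊕ 𝔨 ⊕ 𝔭` (orthogonal for the invariant form `Q`), where `(𝔤, 𝔥 ⊕ 𝔨)` is a symmetric pair
and `𝔥`, `𝔨` are commuting ideals of the isotropy algebra; `Ph`, `Pk`, `Pp` are the projections. -/
structure SymData (h k p : Submodule ℝ 𝔸) (Q : 𝔸 →ₗ[ℝ] 𝔸 →ₗ[ℝ] ℝ) (Ph Pk Pp : 𝔸 →L[ℝ] 𝔸) :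
    Prop where
  hh : ∀ X ∈ h, ∀ Y ∈ h, ⁅X, Y⁆ ∈ h
  kk : ∀ X ∈ k, ∀ Y ∈ k, ⁅X, Y⁆ ∈ k
  hk : ∀ X ∈ h, ∀ Y ∈ k, ⁅X, Y⁆ = 0
  hp : ∀ X ∈ h, ∀ Y ∈ p, ⁅X, Y⁆ ∈ p
  kp : ∀ X ∈ k, ∀ Y ∈ p, ⁅X, Y⁆ ∈ p
  pp : ∀ X ∈ p, ∀ Y ∈ p, ⁅X, Y⁆ ∈ h ⊔ k
  Qsymm : ∀ X Y, Q X Y = Q Y X
  Qinv : ∀ X Y Z, Q ⁅X, Y⁆ Z = Q X ⁅Y, Z⁆
  Qpos : ∀ X ∈ h ⊔ k ⊔ p, X ≠ 0 → 0 < Q X X
  Qhk : ∀ X ∈ h, ∀ Y ∈ k, Q X Y = 0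
  Qhp : ∀ X ∈ h, ∀ Y ∈ p, Q X Y = 0
  Qkp : ∀ X ∈ k, ∀ Y ∈ p, Q X Y = 0
  Ph_h : ∀ X ∈ h, Ph X = X
  Ph_k : ∀ X ∈ k, Ph X = 0
  Ph_p : ∀ X ∈ p, Ph X = 0
  Pk_h : ∀ X ∈ h, Pk X = 0
  Pk_k : ∀ X ∈ k, Pk X = X
  Pk_p : ∀ X ∈ p, Pk X = 0
  Pp_h : ∀ X ∈ h, Pp X = 0
  Pp_k : ∀ X ∈ k, Pp X = 0
  Pp_p : ∀ X ∈ p, Pp X = X

/-- the perturbed submersion Lagrangian `½ |x|² + ½ r |a|² + t φ(x + a)`, `x ∈ 𝔭`, `a ∈ 𝔨` -/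
def LL {m : Submodule ℝ 𝔸} (Q : 𝔸 →ₗ[ℝ] 𝔸 →ₗ[ℝ] ℝ) (Pk Pp : 𝔸 →L[ℝ] 𝔸) (r t : ℝ) (φ : m → ℝ)
    (u : m) : ℝ :=
  (1 / 2) * Q (Pp u) (Pp u) + (1 / 2) * r * Q (Pk u) (Pk u) + t * φ u

/-- `φ` is smooth outside the origin, homogeneous of degree two, invariant under `𝔥`, and even in
the `𝔨` component -/
structure PhiData (h m : Submodule ℝ 𝔸) (P : 𝔸 →L[ℝ] m) (Pk Pp : 𝔸 →L[ℝ] 𝔸) (φ : m → ℝ) :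
    Prop where
  smooth : ContDiffOn ℝ ∞ φ {0}ᶜ
  hom : ∀ (c : ℝ) (u : m), φ (c • u) = c ^ 2 * φ u
  inv : ∀ Y ∈ h, ∀ u : m, u ≠ 0 → D1 φ u (P ⁅Y, (u : 𝔸)⁆) = 0
  even : ∀ u v : m, Pp v = Pp u → Pk v = -Pk u → φ v = φ u

/-- curvature form of the submersion metric (`t = 0`) -/
def R0 (Q : 𝔸 →ₗ[ℝ] 𝔸 →ₗ[ℝ] ℝ) (Ph Pk Pp : 𝔸 →L[ℝ] 𝔸) (r : ℝ) (u b : 𝔸) : ℝ :=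
  Q (Ph ⁅Pp u, Pp b⁆) (Ph ⁅Pp u, Pp b⁆)
    + (1 / 4) * r ^ 2 * Q (⁅Pk u, Pp b⁆ + ⁅Pp u, Pk b⁆) (⁅Pk u, Pp b⁆ + ⁅Pp u, Pk b⁆)
    + (1 - 3 / 4 * r) * Q (Pk ⁅Pp u, Pp b⁆) (Pk ⁅Pp u, Pp b⁆)
    + (3 / 2 * r - r ^ 2) * Q (Pk ⁅Pp u, Pp b⁆) ⁅Pk u, Pk b⁆
    + r / 4 * Q ⁅Pk u, Pk b⁆ ⁅Pk u, Pk b⁆

/-- the second order limit form; `α = [x, v]`, `β = [u, s]`, where `x` is the gradient of `φ` at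
`u` and `s` is the derivative of the gradient in the direction `v` -/
def R2 {m : Submodule ℝ 𝔸} (Q : 𝔸 →ₗ[ℝ] 𝔸 →ₗ[ℝ] ℝ) (Ph Pk : 𝔸 →L[ℝ] 𝔸) (P : 𝔸 →L[ℝ] m)
    (φ : m → ℝ) (r : ℝ) (u v : m) (x s : 𝔸) (τ : ℝ) (a c z : 𝔸) : ℝ :=
  Q (Ph z) (Ph z) + (1 - 3 / 4 * r) * Q (Pk z) (Pk z)
    + (1 / 4) * r ^ 2 * Q (⁅a, (v : 𝔸)⁆ + ⁅(u : 𝔸), c⁆) (⁅a, (v : 𝔸)⁆ + ⁅(u : 𝔸), c⁆)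
    + τ * Q (Ph ⁅x, (v : 𝔸)⁆) (Ph z)
    + (1 / 2) * τ * Q (Pk (⁅x, (v : 𝔸)⁆ + ⁅(u : 𝔸), s⁆)) (Pk z)
    + τ ^ 2 * ((1 / (4 * r)) * Q (Pk (⁅x, (v : 𝔸)⁆ + ⁅(u : 𝔸), s⁆))
          (Pk (⁅x, (v : 𝔸)⁆ + ⁅(u : 𝔸), s⁆))
        + (1 / r) * Q (Ph ⁅x, (v : 𝔸)⁆) (Ph ⁅x, (v : 𝔸)⁆)
        + ((1 - r) / (2 * r)) * D3 φ u (P ⁅⁅x, (u : 𝔸)⁆, (u : 𝔸)⁆) v v)

end alg

end Pool.Agent.Helper93.Fin
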